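import Mathlib

/-!
# Distance labelings of cycles: definitions and statements of the parts

Project DL (MP_30c5a0_lc): `λ(n) ≤ C n^{3/2} 2^{-√(log₂ n)/20}`; the conjecture
`λ(n) = n√n/√6 + O(n)` is false.
-/

namespace Pool.Agent.W999.DL

/-- Distance of the vertices `u, v ∈ {0, …, t-1}` in the cycle `C_t`: the length of the shorter
of the two paths joining them. -/
def cdist (t u v : ℕ) : ℕ := min (max u v - min u v) (t - (max u v - min u v))

/-- `φ` is a distance labeling of `{C_3, …, C_n}`. -/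
def IsDistanceLabeling (n : ℕ) {L : Type*} (φ : (i : ℕ) → Fin i → L) : Prop :=
  ∃ d' : L → L → ℤ, ∀ i, 3 ≤ i → i ≤ n → ∀ u v : Fin i,
    d' (φ i u) (φ i v) = (cdist i u v : ℤ)

/-- The minimum number of labels in a distance labeling of `{C_3, …, C_n}`. -/
noncomputable def lam (n : ℕ) : ℕ :=
  sInf {k | ∃ φ : (i : ℕ) → Fin i → ℕ, IsDistanceLabeling n φ ∧
    ({x | ∃ i, 3 ≤ i ∧ i ≤ n ∧ ∃ u : Fin i, φ i u = x} : Set ℕ).ncard = k}

/-- The cycles with lengths in `S` have a distance labeling with at most `N` labels. -/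
def Lab (S : Set ℕ) (N : ℕ) : Prop :=
  ∃ (L : Type) (φ : ℕ → ℕ → L) (F : Finset L), F.card ≤ N ∧
    (∀ t ∈ S, ∀ u < t, φ t u ∈ F) ∧
    ∀ t ∈ S, ∀ t' ∈ S, ∀ u < t, ∀ v < t, ∀ u' < t', ∀ v' < t',
      φ t u = φ t' u' → φ t v = φ t' v' → cdist t u v = cdist t' u' v'

/-! ## The code -/

/-- slope: for `β`, default `a`, position `w`, bit `i` -/
def slope (β : Bool) (a : ℕ) (w i : ℕ) : ℕ := if w.testBit i = β then w / 2 ^ (i + 1) else a

/-- `J` pairs of elements of `ZMod Q` -/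
abbrev Y (J Q : ℕ) := Fin J → ZMod Q × ZMod Q

/-- the information of the right label at `w` on `y` -/
def xi (J Q : ℕ) (β : Bool) (w : ℕ) (y : Y J Q) : Fin J → ZMod Q :=
  fun i => (y i).1 + (slope β (2 ^ J) w i : ZMod Q) * (y i).2 + (w : ZMod Q)

/-- the information of the left label at `w` on `y` -/
def xi' (J Q : ℕ) (β : Bool) (w : ℕ) (y : Y J Q) : Fin J → ZMod Q :=
  fun i => (y i).1 + (slope (!β) (2 ^ J + 1) w i : ZMod Q) * (y i).2 - (2 ^ J * w : ZMod Q)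

/-- `(v, v')` is a candidate pair for `(F, F')` -/
def Cand (J Q : ℕ) (β : Bool) (v v' : ℕ) (F F' : Fin J → ZMod Q) : Prop :=
  ∃ i : Fin J, v.testBit i = β ∧ v'.testBit i = (!β) ∧ v / 2 ^ ((i : ℕ) + 1) = v' / 2 ^ ((i : ℕ) + 1) ∧
    F i - F' i = (v : ZMod Q) + (2 ^ J * v' : ZMod Q)

/-- `y` is good for `β`: no accidental candidates -/
def GoodY (J Q : ℕ) (β : Bool) (y : Y J Q) : Prop :=
  ∀ w < 2 ^ J, ∀ x < 2 ^ J, ∀ v < 2 ^ J, ∀ v' < 2 ^ J, (v, v') ≠ (w, x) →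
    ¬ Cand J Q β v v' (xi J Q β w y) (xi' J Q β x y)

/-- arc symbols -/
abbrev Sym (J Q : ℕ) := Bool × ZMod (2 ^ (J + 1)) × (Fin J → ZMod Q) × (Fin J → ZMod Q)

/-- codes of cycles -/
abbrev Code (J Q : ℕ) := ZMod (2 ^ (J + 1)) × Y J Q × Y J Q

/-- symbol of the arc `w` on side `b` (`false`: right, `true`: left) of the cycle with code `c` -/
def sym (J Q : ℕ) (c : Code J Q) (b : Bool) (w : ℕ) : Sym J Q :=
  if b then (true, c.1 - (w : ZMod (2 ^ (J + 1))), xi' J Q false w c.2.1, xi' J Q true w c.2.2)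
  else (false, c.1 + (w : ZMod (2 ^ (J + 1))), xi J Q false w c.2.1, xi J Q true w c.2.2)

/-- good codes -/
def Good (J Q : ℕ) (c : Code J Q) : Prop := GoodY J Q false c.2.1 ∧ GoodY J Q true c.2.2

end Pool.Agent.W999.DL
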