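import Pool.Agent.W999.DL.Lay2
import Pool.Agent.W970.DL.Lam
import Pool.Agent.W970.DL.Count
import Pool.Agent.W304.DL.UnionFall
import Pool.Agent.W395.DL.Numb

/-! # Project DL: assembly -/

namespace Pool.Agent.W999.DL

lemma Lab.mono {S S' : Set ℕ} {N N' : ℕ} (h : Lab S N) (hS : S' ⊆ S) (hN : N ≤ N') :
    Lab S' N' := by
  obtain ⟨L, φ, F, h1, h2, h3⟩ := h
  exact ⟨L, φ, F, h1.trans hN, fun t ht => h2 t (hS ht),
    fun t ht t' ht' => h3 t (hS ht) t' (hS ht')⟩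

theorem bound_of (hBAD : S_BAD) : Bound lam := by
  intro J Q P B n hJ hQ hQ2 hQ1 hP hE hn hB
  obtain ⟨code, hcode⟩ := W395.DL.Numb.main J Q hJ hQ
  have hlay := lay J Q P n code hJ hQ hQ1 hcode hP hE hn
  have hcount := W970.DL.count hBAD J Q n code hJ hQ hQ2 hQ1 hcode
  set S : Set ℕ := {t | t ≤ n ∧ ¬ Good J Q (code (t % tT J Q))} with hS
  have hfin : S.Finite := (Set.finite_Iic n).subset (fun t ht => ht.1)
  have hcard : S.ncard ≤ B ^ 2 := by
    have := hcount.trans hB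
    exact Nat.le_of_mul_le_mul_left this hQ.pos
  have hfall := W304.DL.fall hfin.toFinset n B
    (fun t ht => ((Set.Finite.mem_toFinset hfin).mp ht).1)
    (by rw [← Set.ncard_eq_toFinset_card S hfin]; exact hcard)
  rw [Set.Finite.coe_toFinset] at hfall
  refine W970.DL.lam_le n _ (Lab.mono (W304.DL.union _ _ _ _ hlay hfall) ?_ le_rfl)
  intro t ht
  by_cases h : Good J Q (code (t % tT J Q))
  · exact Or.inl ⟨ht.2, h⟩
  · exact Or.inr ⟨ht.2, h⟩

theorem main_of (hBAD : S_BAD) (hNUM : S_NUM) : ∃ C : ℝ, ∀ n : ℕ, 1 ≤ n →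
    (lam n : ℝ) ≤ C * ((n : ℝ) * Real.sqrt n) * (2 : ℝ) ^ (-(Real.sqrt (Real.logb 2 n) / 20)) :=
  hNUM lam (bound_of hBAD)

end Pool.Agent.W999.DL
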