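import Pool.Agent.W999.DL.Pair

/-! # Project DL: the labeling of all cycles with good codes -/

namespace Pool.Agent.W999.DL

lemma cdist_comm (t u v : ℕ) : cdist t u v = cdist t v u := by
  unfold cdist
  rw [max_comm u v, min_comm u v]

/-- equal signed displacements, not more than half of the length -/
lemma cdist_eq_of_diff {t t' u v u' v' : ℕ} (h : u + v' = u' + v)
    (h1 : 2 * (max u v - min u v) ≤ t) (h2 : 2 * (max u v - min u v) ≤ t') :
    cdist t u v = cdist t' u' v' := by
  unfold cdist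
  omega

/-- equal long displacements -/
lemma cdist_eq_of_long {t t' u v u' v' : ℕ} (huv : u ≤ v) (huv' : u' ≤ v')
    (hv : v ≤ t) (hv' : v' ≤ t') (h : t + u + v' = t' + u' + v)
    (h1 : t ≤ 2 * (v - u)) (h2 : t' ≤ 2 * (v' - u')) :
    cdist t u v = cdist t' u' v' := by
  unfold cdist
  omega

section
variable (J Q P : ℕ) (code : ℕ → Code J Q) (idx : Sym J Q → ℕ)

/-- spacing of the arcs -/
def dD (t : ℕ) : ℕ := nN J Q * nN J Q * (t / tT J Q)

/-- length of the arcs -/
def ell (t : ℕ) : ℕ := dD J Q t - tT J Q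

/-- vertex of arc `w` on side `b` with offset `s` -/
def pos (t : ℕ) (b : Bool) (w s : ℕ) : ℕ :=
  (if b then 2 ^ J * dD J Q t + (t % tT J Q) % nN J Q else 0) + w * dD J Q t + s

/-- path used for a symbol in the window of `t` -/
def pathOf (t : ℕ) (σ : Sym J Q) : ZMod P :=
  (((t / tT J Q) % P : ℕ) : ZMod P) * (idx σ : ZMod P) + (((t / tT J Q) / P : ℕ) : ZMod P)

def IsArc (t u : ℕ) : Prop :=
  ∃ p : Bool × ℕ × ℕ, p.2.1 < 2 ^ J ∧ p.2.2 < ell J Q t ∧ u = pos J Q t p.1 p.2.1 p.2.2

open Classical in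
/-- the labeling -/
noncomputable def lab (t u : ℕ) : (Sym J Q × ZMod P × ℕ) ⊕ (ℕ × ℕ) :=
  if h : IsArc J Q t u then
    Sum.inl (sym J Q (code (t % tT J Q)) h.choose.1 h.choose.2.1,
      pathOf J Q P idx t (sym J Q (code (t % tT J Q)) h.choose.1 h.choose.2.1), h.choose.2.2)
  else Sum.inr (t, u)

variable {J Q P code idx}

lemma sym_side {c c' : Code J Q} {b b' : Bool} {w w' : ℕ}
    (h : sym J Q c b w = sym J Q c' b' w') : b = b' := by
  cases b <;> cases b' <;> simp [sym] at h ⊢

lemma sym_inj {c : Code J Q} {b b' : Bool} {w w' : ℕ} (hw : w < 2 ^ J) (hw' : w' < 2 ^ J)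
    (h : sym J Q c b w = sym J Q c b' w') : b = b' ∧ w = w' := by
  obtain rfl := sym_side h
  refine ⟨rfl, ?_⟩
  have hlt : w < 2 ^ (J + 1) := by rw [pow_succ]; omega
  have hlt' : w' < 2 ^ (J + 1) := by rw [pow_succ]; omega
  cases b
  · simp only [sym, Bool.false_eq_true, if_false, Prod.mk.injEq, true_and] at h
    exact cast_inj hlt hlt' (by linear_combination h.1)
  · simp only [sym, if_true, Prod.mk.injEq, true_and] at h
    exact cast_inj hlt hlt' (by linear_combination -h.1)

lemma lab_cases {t u t' u' : ℕ} (h : lab J Q P code idx t u = lab J Q P code idx t' u') :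
    (t = t' ∧ u = u') ∨
    ∃ b w w' s, w < 2 ^ J ∧ w' < 2 ^ J ∧ s < ell J Q t ∧ s < ell J Q t' ∧
      u = pos J Q t b w s ∧ u' = pos J Q t' b w' s ∧
      sym J Q (code (t % tT J Q)) b w = sym J Q (code (t' % tT J Q)) b w' ∧
      pathOf J Q P idx t (sym J Q (code (t % tT J Q)) b w) =
        pathOf J Q P idx t' (sym J Q (code (t % tT J Q)) b w) := by
  classical
  unfold lab at h
  by_cases h1 : IsArc J Q t u
  · by_cases h2 : IsArc J Q t' u'
    · rw [dif_pos h1, dif_pos h2] at h
      have h' := Sum.inl.inj h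
      simp only [Prod.mk.injEq] at h'
      obtain ⟨e1, e2, e3⟩ := h'
      right
      have hb := sym_side e1
      refine ⟨h1.choose.1, h1.choose.2.1, h2.choose.2.1, h1.choose.2.2,
        h1.choose_spec.1, h2.choose_spec.1, h1.choose_spec.2.1, ?_, h1.choose_spec.2.2, ?_, ?_, ?_⟩
      · rw [e3]; exact h2.choose_spec.2.1
      · rw [e3, hb]; exact h2.choose_spec.2.2
      · rw [e1, hb]
      · rw [e2, ← e1]
    · rw [dif_pos h1, dif_neg h2] at h
      exact absurd h (by simp)
  · by_cases h2 : IsArc J Q t' u'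
    · rw [dif_neg h1, dif_pos h2] at h
      exact absurd h (by simp)
    · rw [dif_neg h1, dif_neg h2] at h
      have h' := Sum.inr.inj h
      simp only [Prod.mk.injEq] at h'
      exact Or.inl h'

end

lemma tT_eq (J Q t : ℕ) : t = 2 * (2 ^ J * dD J Q t) + t % tT J Q := by
  have h := Nat.div_add_mod t (tT J Q)
  have h2 : 2 * (2 ^ J * dD J Q t) = tT J Q * (t / tT J Q) := by
    unfold dD
    generalize t / tT J Q = k
    unfold tT
    rw [pow_succ]
    ring
  rw [h2, h]

section
variable {J Q P n : ℕ} {code : ℕ → Code J Q} {idx : Sym J Q → ℕ}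

lemma tT_pos (hQ : Q.Prime) : 0 < tT J Q := by
  unfold tT nN
  have := hQ.pos
  positivity

lemma nN_le_tT (hQ : Q.Prime) : nN J Q ≤ tT J Q := by
  unfold tT
  have h1 : 0 < nN J Q := by unfold nN; exact pow_pos hQ.pos _
  have h2 : 0 < 2 ^ (J + 1) := by positivity
  calc nN J Q = 1 * 1 * nN J Q := by ring
    _ ≤ 2 ^ (J + 1) * nN J Q * nN J Q := by
      apply Nat.mul_le_mul_right
      exact Nat.mul_le_mul h2 h1

/-- same arc -/
lemma same_arc {t t' w s q w' : ℕ} {e : Bool} (hq : q < ell J Q t) (hs : s < ell J Q t)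
    (hq' : q < ell J Q t') (hs' : s < ell J Q t') :
    cdist t (pos J Q t e w s) (pos J Q t e w q) =
      cdist t' (pos J Q t' e w' s) (pos J Q t' e w' q) := by
  have h1 := tT_eq J Q t
  have h2 := tT_eq J Q t'
  have h3 : dD J Q t ≤ 2 ^ J * dD J Q t := Nat.le_mul_of_pos_left _ (by positivity)
  have h4 : dD J Q t' ≤ 2 ^ J * dD J Q t' := Nat.le_mul_of_pos_left _ (by positivity)
  unfold ell at *
  apply cdist_eq_of_diff
  · unfold pos; omega
  · unfold pos; omega
  · unfold pos; omega

lemma key (hQ : Q.Prime) (hQ1 : 2 ^ J + 1 < Q) (hJ : 1 ≤ J) (hcode : Numbering J Q code)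
    {t t' : ℕ} (hg : Good J Q (code (t % tT J Q))) (hg' : Good J Q (code (t' % tT J Q)))
    (hk : t / tT J Q = t' / tT J Q)
    {b e : Bool} {w w' s x x' q : ℕ} (hw : w < 2 ^ J) (hw' : w' < 2 ^ J) (hs : s < ell J Q t)
    (hx : x < 2 ^ J) (hx' : x' < 2 ^ J) (hq : q < ell J Q t)
    (h1 : sym J Q (code (t % tT J Q)) b w = sym J Q (code (t' % tT J Q)) b w')
    (h2 : sym J Q (code (t % tT J Q)) e x = sym J Q (code (t' % tT J Q)) e x')
    (hbe : b = e ∨ (b = false ∧ e = true)) :
    cdist t (pos J Q t b w s) (pos J Q t e x q) =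
      cdist t' (pos J Q t' b w' s) (pos J Q t' e x' q) := by
  have hT := tT_pos (J := J) hQ
  have hD : dD J Q t' = dD J Q t := by unfold dD; rw [hk]
  have hℓ : ell J Q t' = ell J Q t := by unfold ell; rw [hD]
  have e1 := tT_eq J Q t
  have e2 := tT_eq J Q t'
  rw [hD] at e2
  have hℓ' : ell J Q t + tT J Q = dD J Q t := by
    unfold ell at *; omega
  have hτ := Nat.mod_lt t hT
  have hτ' := Nat.mod_lt t' hT
  have hpw : (w + 1) * dD J Q t ≤ 2 ^ J * dD J Q t := Nat.mul_le_mul_right _ hw
  have hpw' : (w' + 1) * dD J Q t ≤ 2 ^ J * dD J Q t := Nat.mul_le_mul_right _ hw'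
  have hpx : (x + 1) * dD J Q t ≤ 2 ^ J * dD J Q t := Nat.mul_le_mul_right _ hx
  have hpx' : (x' + 1) * dD J Q t ≤ 2 ^ J * dD J Q t := Nat.mul_le_mul_right _ hx'
  rw [add_mul, one_mul] at hpw hpw' hpx hpx'
  have same : b = e → w + x' = w' + x →
      cdist t (pos J Q t b w s) (pos J Q t e x q) =
      cdist t' (pos J Q t' b w' s) (pos J Q t' e x' q) := by
    rintro rfl hsum
    have hmul : w * dD J Q t + x' * dD J Q t = w' * dD J Q t + x * dD J Q t := by
      rw [← add_mul, ← add_mul, hsum]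
    apply cdist_eq_of_diff
    · unfold pos; rw [hD]; omega
    · unfold pos; omega
    · unfold pos; omega
  have hpow : 2 ^ (J + 1) = 2 * 2 ^ J := by rw [pow_succ]; ring
  rcases hbe with hbe | ⟨hb, he⟩
  · subst hbe
    apply same rfl
    have hnat : ((w + x' : ℕ) : ZMod (2 ^ (J + 1))) = ((w' + x : ℕ) : ZMod (2 ^ (J + 1))) := by
      push_cast
      cases b
      · simp only [sym, Bool.false_eq_true, if_false, Prod.mk.injEq, true_and] at h1 h2
        linear_combination h1.1 - h2.1
      · simp only [sym, if_true, Prod.mk.injEq, true_and] at h1 h2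
        linear_combination h2.1 - h1.1
    exact cast_inj (by omega) (by omega) hnat
  · subst hb he
    obtain ⟨rfl, rfl, hc⟩ := pair J Q hJ hQ hQ1 _ _ hg hg' w hw x hx w' hw' x' hx' h1 h2
    have hN0 : 0 < nN J Q := by unfold nN; exact pow_pos hQ.pos _
    have hNT := nN_le_tT (J := J) hQ
    have hg1 := Nat.mod_lt (t % tT J Q) hN0
    have hg1' := Nat.mod_lt (t' % tT J Q) hN0
    rcases hc with hc | ⟨hlt, hy⟩ | ⟨hlt, hφ, hz⟩
    · have a1 := (hcode.1 _ hτ _ hτ').mp (by rw [hc])
      have a2 := (hcode.2 _ hτ _ hτ').mp ⟨by rw [hc], by rw [hc]⟩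
      have a3 : t % tT J Q = t' % tT J Q := by
        rw [← Nat.div_add_mod (t % tT J Q) (nN J Q), ← Nat.div_add_mod (t' % tT J Q) (nN J Q),
          a1, a2]
      have : t = t' := by omega
      rw [this]
    · have a1 := (hcode.1 _ hτ _ hτ').mp hy
      have hm : (x + 1) * dD J Q t ≤ w * dD J Q t := Nat.mul_le_mul_right _ hlt
      rw [add_mul, one_mul] at hm
      apply cdist_eq_of_diff
      · simp only [pos, if_true, Bool.false_eq_true, if_false, hD, a1]
      · simp only [pos, if_true, Bool.false_eq_true, if_false]; omega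
      · simp only [pos, if_true, Bool.false_eq_true, if_false]; omega
    · have a2 := (hcode.2 _ hτ _ hτ').mp ⟨hφ, hz⟩
      have b1 := Nat.div_add_mod (t % tT J Q) (nN J Q)
      have b2 := Nat.div_add_mod (t' % tT J Q) (nN J Q)
      rw [a2] at b1
      have hm : (w + 1) * dD J Q t ≤ x * dD J Q t := Nat.mul_le_mul_right _ hlt
      rw [add_mul, one_mul] at hm
      apply cdist_eq_of_long
      · simp only [pos, if_true, Bool.false_eq_true, if_false]; omega
      · simp only [pos, if_true, Bool.false_eq_true, if_false, hD]; omega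
      · simp only [pos, if_true]; omega
      · simp only [pos, if_true, hD]; omega
      · simp only [pos, if_true, Bool.false_eq_true, if_false, hD]; omega
      · simp only [pos, if_true, Bool.false_eq_true, if_false]; omega
      · simp only [pos, if_true, Bool.false_eq_true, if_false, hD]; omega

end

end Pool.Agent.W999.DL
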