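import Pool.Agent.W999.DL.Lay

/-! # Project DL: the labeling of all cycles with good codes (end) -/

namespace Pool.Agent.W999.DL

lemma mul_add_inj {D w w' s s' : ℕ} (hs : s < D) (hs' : s' < D) (h : w * D + s = w' * D + s') :
    w = w' ∧ s = s' := by
  have hD : 0 < D := by omega
  have h1 : (w * D + s) / D = w := by
    rw [mul_comm, Nat.mul_add_div hD, Nat.div_eq_of_lt hs, add_zero]
  have h2 : (w' * D + s') / D = w' := by
    rw [mul_comm, Nat.mul_add_div hD, Nat.div_eq_of_lt hs', add_zero]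
  have : w = w' := by rw [← h1, h, h2]
  subst this
  exact ⟨rfl, by omega⟩

lemma ell_le (J Q t : ℕ) : ell J Q t ≤ dD J Q t := Nat.sub_le _ _

lemma pos_lt {J Q t : ℕ} {b : Bool} {w s : ℕ} (hQ : Q.Prime) (hw : w < 2 ^ J)
    (hs : s < ell J Q t) : pos J Q t b w s < t := by
  have hT := tT_pos (J := J) hQ
  have e1 := tT_eq J Q t
  have h1 : (w + 1) * dD J Q t ≤ 2 ^ J * dD J Q t := Nat.mul_le_mul_right _ hw
  have h2 := ell_le J Q t
  have h3 := Nat.mod_le (t % tT J Q) (nN J Q)
  rw [add_mul, one_mul] at h1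
  unfold pos
  cases b
  · simp only [Bool.false_eq_true, if_false]; omega
  · simp only [if_true]; omega

lemma pos_inj {J Q t : ℕ} {b b' : Bool} {w s w' s' : ℕ} (hw : w < 2 ^ J)
    (hw' : w' < 2 ^ J) (hs : s < ell J Q t) (hs' : s' < ell J Q t)
    (h : pos J Q t b w s = pos J Q t b' w' s') : b = b' ∧ w = w' ∧ s = s' := by
  have h1 : (w + 1) * dD J Q t ≤ 2 ^ J * dD J Q t := Nat.mul_le_mul_right _ hw
  have h1' : (w' + 1) * dD J Q t ≤ 2 ^ J * dD J Q t := Nat.mul_le_mul_right _ hw'
  have h2 := ell_le J Q t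
  rw [add_mul, one_mul] at h1 h1'
  unfold pos at h
  have hs1 : s < dD J Q t := by omega
  have hs1' : s' < dD J Q t := by omega
  cases b <;> cases b'
  · simp only [Bool.false_eq_true, if_false] at h
    exact ⟨rfl, mul_add_inj hs1 hs1' (by omega)⟩
  · simp only [Bool.false_eq_true, if_false, if_true] at h; omega
  · simp only [Bool.false_eq_true, if_false, if_true] at h; omega
  · simp only [if_true] at h
    exact ⟨rfl, mul_add_inj hs1 hs1' (by omega)⟩

open Classical in
lemma fresh_card {J Q t : ℕ} (hQ : Q.Prime) :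
    ((Finset.range t).filter (fun u => ¬ IsArc J Q t u)).card ≤ (2 ^ (J + 1) + 1) * tT J Q := by
  set A : Finset ℕ := ((Finset.univ : Finset Bool) ×ˢ Finset.range (2 ^ J) ×ˢ
    Finset.range (ell J Q t)).image (fun p => pos J Q t p.1 p.2.1 p.2.2) with hA
  have hcard : A.card = 2 ^ (J + 1) * ell J Q t := by
    rw [hA, Finset.card_image_of_injOn]
    · rw [Finset.card_product, Finset.card_product, Finset.card_range, Finset.card_range,
        Finset.card_univ, Fintype.card_bool, pow_succ]
      ring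
    · rintro ⟨b, w, s⟩ h1 ⟨b', w', s'⟩ h2 h
      simp only [Finset.coe_product, Finset.coe_univ, Finset.coe_range, Set.mem_prod,
        Set.mem_univ, Set.mem_Iio, true_and] at h1 h2
      obtain ⟨rfl, rfl, rfl⟩ := pos_inj h1.1 h2.1 h1.2 h2.2 h
      rfl
  have hsub : A ⊆ Finset.range t := by
    intro u hu
    rw [hA, Finset.mem_image] at hu
    obtain ⟨⟨b, w, s⟩, hp, rfl⟩ := hu
    simp only [Finset.mem_product, Finset.mem_univ, Finset.mem_range, true_and] at hp
    exact Finset.mem_range.mpr (pos_lt hQ hp.1 hp.2)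
  have hsub2 : (Finset.range t).filter (fun u => ¬ IsArc J Q t u) ⊆ Finset.range t \ A := by
    intro u hu
    rw [Finset.mem_filter] at hu
    rw [Finset.mem_sdiff]
    refine ⟨hu.1, fun hu2 => hu.2 ?_⟩
    rw [hA, Finset.mem_image] at hu2
    obtain ⟨⟨b, w, s⟩, hp, rfl⟩ := hu2
    simp only [Finset.mem_product, Finset.mem_univ, Finset.mem_range, true_and] at hp
    exact ⟨(b, w, s), hp.1, hp.2, rfl⟩
  refine (Finset.card_le_card hsub2).trans ?_
  rw [Finset.card_sdiff_of_subset hsub, Finset.card_range, hcard]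
  have e1 := tT_eq J Q t
  have hτ := Nat.mod_lt t (tT_pos (J := J) hQ)
  have hD : dD J Q t ≤ ell J Q t + tT J Q := by unfold ell; omega
  have hmul : 2 ^ J * dD J Q t ≤ 2 ^ J * ell J Q t + 2 ^ J * tT J Q := by
    rw [← mul_add]; exact Nat.mul_le_mul_left _ hD
  rw [pow_succ]
  have e3 : 2 ^ J * 2 * ell J Q t = 2 * (2 ^ J * ell J Q t) := by ring
  have e4 : (2 ^ J * 2 + 1) * tT J Q = 2 * (2 ^ J * tT J Q) + tT J Q := by ring
  rw [e3, e4]
  omega

lemma card_sym {J Q : ℕ} [NeZero Q] : Fintype.card (Sym J Q) = eE J Q := by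
  have h1 : Fintype.card (Fin J → ZMod Q) = Q ^ J := by
    rw [Fintype.card_fun, ZMod.card, Fintype.card_fin]
  unfold Sym eE
  rw [Fintype.card_prod, Fintype.card_prod, Fintype.card_prod, h1, Fintype.card_bool, ZMod.card,
    pow_succ, pow_succ, mul_comm 2 J, pow_mul]
  ring

open Classical in
theorem lay : S_LAY := by
  intro J Q P n code hJ hQ hQ1 hcode hP hE hn
  have : Fact Q.Prime := ⟨hQ⟩
  have : Fact P.Prime := ⟨hP⟩
  have : NeZero Q := ⟨hQ.ne_zero⟩
  have : NeZero P := ⟨hP.ne_zero⟩
  have hT := tT_pos (J := J) hQ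
  have hcard := card_sym (J := J) (Q := Q)
  set idx : Sym J Q → ℕ := fun σ => (Fintype.equivFin (Sym J Q) σ : ℕ) with hidx
  have hidx_lt : ∀ σ, idx σ < P := fun σ => by
    have h1 := (Fintype.equivFin (Sym J Q) σ).isLt
    have h2 : Fintype.card (Sym J Q) ≤ P := hcard.le.trans hE
    exact lt_of_lt_of_le h1 h2
  have hidx_inj : ∀ σ σ', (idx σ : ZMod P) = (idx σ' : ZMod P) → σ = σ' := by
    intro σ σ' h
    have h1 := cast_inj (hidx_lt σ) (hidx_lt σ') h
    exact (Fintype.equivFin (Sym J Q)).injective (Fin.ext h1)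
  set arcs : Finset ((Sym J Q × ZMod P × ℕ) ⊕ (ℕ × ℕ)) :=
    ((Finset.univ : Finset (Sym J Q)) ×ˢ (Finset.univ : Finset (ZMod P)) ×ˢ
      Finset.range (n / 2 ^ (J + 1) + 1)).image Sum.inl with harcs
  set fresh : Finset ((Sym J Q × ZMod P × ℕ) ⊕ (ℕ × ℕ)) :=
    (Finset.range (n + 1)).biUnion (fun t =>
      ((Finset.range t).filter (fun u => ¬ IsArc J Q t u)).image (fun u => Sum.inr (t, u)))
    with hfresh
  refine ⟨_, lab J Q P code idx, arcs ∪ fresh, ?_, ?_, ?_⟩
  · refine (Finset.card_union_le _ _).trans (Nat.add_le_add ?_ ?_)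
    · rw [harcs]
      refine Finset.card_image_le.trans ?_
      rw [Finset.card_product, Finset.card_product, Finset.card_range, Finset.card_univ,
        Finset.card_univ, ZMod.card, hcard, mul_assoc]
    · rw [hfresh]
      have := Finset.card_biUnion_le_card_mul (Finset.range (n + 1)) (fun t =>
        ((Finset.range t).filter (fun u => ¬ IsArc J Q t u)).image
          (fun u => (Sum.inr (t, u) : (Sym J Q × ZMod P × ℕ) ⊕ (ℕ × ℕ))))
        ((2 ^ (J + 1) + 1) * tT J Q) (fun t _ => Finset.card_image_le.trans (fresh_card hQ))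
      rw [Finset.card_range] at this
      rw [mul_assoc]
      exact this
  · rintro t ⟨htn, -⟩ u hu
    by_cases h : IsArc J Q t u
    · apply Finset.mem_union_left
      rw [harcs, Finset.mem_image]
      refine ⟨_, ?_, (by unfold lab; rw [dif_pos h])⟩
      simp only [Finset.mem_product, Finset.mem_univ, true_and, Finset.mem_range]
      have h1 := h.choose_spec.2.1
      have h2 := ell_le J Q t
      have e1 := tT_eq J Q t
      have h3 : dD J Q t ≤ n / 2 ^ (J + 1) := by
        rw [Nat.le_div_iff_mul_le (by positivity), pow_succ]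
        have : dD J Q t * (2 ^ J * 2) = 2 * (2 ^ J * dD J Q t) := by ring
        omega
      omega
    · apply Finset.mem_union_right
      rw [hfresh, Finset.mem_biUnion]
      refine ⟨t, Finset.mem_range.mpr (by omega), ?_⟩
      rw [Finset.mem_image]
      refine ⟨u, Finset.mem_filter.mpr ⟨Finset.mem_range.mpr hu, h⟩, ?_⟩
      unfold lab
      rw [dif_neg h]
  · rintro t ⟨htn, hg⟩ t' ⟨htn', hg'⟩ u hu v hv u' hu' v' hv' h1 h2
    rcases lab_cases h1 with ⟨rfl, rfl⟩ | ⟨b, w, w', s, hw, hw', hs, hs', rfl, rfl, hb, hpb⟩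
    · rcases lab_cases h2 with ⟨-, rfl⟩ | ⟨e, x, x', q, hx, hx', hq, hq', rfl, rfl, he, hpe⟩
      · rfl
      · obtain ⟨-, rfl⟩ := sym_inj hx hx' he
        rfl
    · rcases lab_cases h2 with ⟨rfl, rfl⟩ | ⟨e, x, x', q, hx, hx', hq, hq', rfl, rfl, he, hpe⟩
      · obtain ⟨-, rfl⟩ := sym_inj hw hw' hb
        rfl
      · by_cases hk : t / tT J Q = t' / tT J Q
        · cases b <;> cases e
          · exact key hQ hQ1 hJ hcode hg hg' hk hw hw' hs hx hx' hq hb he (Or.inl rfl)
          · exact key hQ hQ1 hJ hcode hg hg' hk hw hw' hs hx hx' hq hb he (Or.inr ⟨rfl, rfl⟩)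
          · rw [cdist_comm t, cdist_comm t']
            exact key hQ hQ1 hJ hcode hg hg' hk hx hx' hq hw hw' hs he hb (Or.inr ⟨rfl, rfl⟩)
          · exact key hQ hQ1 hJ hcode hg hg' hk hw hw' hs hx hx' hq hb he (Or.inl rfl)
        · have hsame : sym J Q (code (t % tT J Q)) b w = sym J Q (code (t % tT J Q)) e x := by
            by_contra hne
            apply hk
            unfold pathOf at hpb hpe
            set i1 := (idx (sym J Q (code (t % tT J Q)) b w) : ZMod P)
            set i2 := (idx (sym J Q (code (t % tT J Q)) e x) : ZMod P)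
            have hi : i1 - i2 ≠ 0 := fun h0 => hne (hidx_inj _ _ (sub_eq_zero.mp h0))
            have e1 : ((((t / tT J Q) % P : ℕ) : ZMod P) - (((t' / tT J Q) % P : ℕ) : ZMod P)) *
                (i1 - i2) = 0 := by
              linear_combination hpb - hpe
            have e2 : (((t / tT J Q) % P : ℕ) : ZMod P) = (((t' / tT J Q) % P : ℕ) : ZMod P) := by
              rcases mul_eq_zero.mp e1 with h0 | h0
              · exact sub_eq_zero.mp h0
              · exact absurd h0 hi
            have e3 : (((t / tT J Q) / P : ℕ) : ZMod P) = (((t' / tT J Q) / P : ℕ) : ZMod P) := by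
              rw [e2] at hpb
              linear_combination hpb
            have f2 := cast_inj (Nat.mod_lt _ hP.pos) (Nat.mod_lt _ hP.pos) e2
            have hlt : ∀ t ≤ n, t / tT J Q / P < P := by
              intro t ht
              rw [Nat.div_lt_iff_lt_mul hP.pos, Nat.div_lt_iff_lt_mul hT]
              calc t ≤ n := ht
                _ < tT J Q * P ^ 2 := hn
                _ = P * P * tT J Q := by ring
            have f3 := cast_inj (hlt t htn) (hlt t' htn') e3
            rw [← Nat.div_add_mod (t / tT J Q) P, ← Nat.div_add_mod (t' / tT J Q) P, f2, f3]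
          obtain ⟨rfl, rfl⟩ := sym_inj hw hx hsame
          rw [hb] at he
          obtain ⟨-, rfl⟩ := sym_inj hw' hx' he
          exact same_arc hq hs hq' hs'

end Pool.Agent.W999.DL
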