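import Pool.Agent.W999.DL.Stms

/-! # Project DL: two cycles sharing a right and a left symbol -/

namespace Pool.Agent.W999.DL

lemma bit_cases (a i : ℕ) : a / 2 ^ i = 2 * (a / 2 ^ (i + 1)) + (a.testBit i).toNat := by
  rw [Nat.toNat_testBit, Nat.pow_succ, ← Nat.div_div_eq_div_mul]
  omega

lemma lt_of_bits {a b i : ℕ} (ha : a.testBit i = false) (hb : b.testBit i = true)
    (h : a / 2 ^ (i + 1) = b / 2 ^ (i + 1)) : a < b := by
  have h1 := bit_cases a i
  have h2 := bit_cases b i
  rw [ha] at h1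
  rw [hb] at h2
  simp only [Bool.toNat_false, Bool.toNat_true] at h1 h2
  have h3 : a / 2 ^ i < b / 2 ^ i := by omega
  by_contra hc
  have := Nat.div_le_div_right (c := 2 ^ i) (not_lt.mp hc)
  omega

lemma exists_bits {J a b : ℕ} (hab : a < b) (hb : b < 2 ^ J) :
    ∃ i, i < J ∧ a.testBit i = false ∧ b.testBit i = true ∧ a / 2 ^ (i + 1) = b / 2 ^ (i + 1) := by
  classical
  have hJ : a / 2 ^ J = b / 2 ^ J := by
    rw [Nat.div_eq_of_lt hb, Nat.div_eq_of_lt (hab.trans hb)]
  have hex : ∃ k, a / 2 ^ k = b / 2 ^ k := ⟨J, hJ⟩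
  obtain ⟨k, hk⟩ : ∃ k, Nat.find hex = k := ⟨_, rfl⟩
  have hk1 : a / 2 ^ k = b / 2 ^ k := by rw [← hk]; exact Nat.find_spec hex
  have hk0 : k ≠ 0 := by
    rintro rfl
    simp at hk1
    omega
  obtain ⟨i, rfl⟩ := Nat.exists_eq_succ_of_ne_zero hk0
  have hne : ¬ a / 2 ^ i = b / 2 ^ i := Nat.find_min hex (by rw [hk]; exact Nat.lt_succ_self i)
  have hkJ : i + 1 ≤ J := by
    have := Nat.find_min' hex hJ
    rw [hk] at this
    exact this
  have h1 := bit_cases a i
  have h2 := bit_cases b i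
  have hle : a / 2 ^ i ≤ b / 2 ^ i := Nat.div_le_div_right hab.le
  have hk1' : a / 2 ^ (i + 1) = b / 2 ^ (i + 1) := hk1
  refine ⟨i, by omega, ?_, ?_, hk1'⟩
  · cases h : a.testBit i
    · rfl
    · exfalso
      rw [h] at h1
      have : (b.testBit i).toNat ≤ 1 := Bool.toNat_le _
      simp only [Bool.toNat_true] at h1
      omega
  · cases h : b.testBit i
    · exfalso
      rw [h] at h2
      simp only [Bool.toNat_false] at h2
      omega
    · rfl

lemma cast_inj {Q a b : ℕ} (ha : a < Q) (hb : b < Q) (h : (a : ZMod Q) = (b : ZMod Q)) : a = b := by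
  rw [ZMod.natCast_eq_natCast_iff] at h
  exact Nat.ModEq.eq_of_lt_of_lt h ha hb

/-- equality of slopes -/
lemma slope_eq_iff {J Q : ℕ} (hQ : 2 ^ J + 1 < Q) {β : Bool} {w x i : ℕ} (hw : w < 2 ^ J)
    (hx : x < 2 ^ J) :
    ((slope β (2 ^ J) w i : ZMod Q) = (slope (!β) (2 ^ J + 1) x i : ZMod Q)) ↔
      (w.testBit i = β ∧ x.testBit i = (!β) ∧ w / 2 ^ (i + 1) = x / 2 ^ (i + 1)) := by
  have h1 : w / 2 ^ (i + 1) < 2 ^ J := lt_of_le_of_lt (Nat.div_le_self _ _) hw
  have h2 : x / 2 ^ (i + 1) < 2 ^ J := lt_of_le_of_lt (Nat.div_le_self _ _) hx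
  unfold slope
  constructor
  · intro h
    by_cases hwb : w.testBit i = β
    · by_cases hxb : x.testBit i = (!β)
      · rw [if_pos hwb, if_pos hxb] at h
        exact ⟨hwb, hxb, cast_inj (by omega) (by omega) h⟩
      · rw [if_pos hwb, if_neg hxb] at h
        have := cast_inj (by omega) (by omega) h
        omega
    · by_cases hxb : x.testBit i = (!β)
      · rw [if_neg hwb, if_pos hxb] at h
        have := cast_inj (by omega) (by omega) h
        omega
      · rw [if_neg hwb, if_neg hxb] at h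
        have := cast_inj (by omega) (by omega) h
        omega
  · rintro ⟨hwb, hxb, he⟩
    rw [if_pos hwb, if_pos hxb, he]

/-- the order of a pair with pattern `β` -/
def Ord (β : Bool) (w x : ℕ) : Prop := if β then x < w else w < x

lemma ord_of_bits {β : Bool} {w x i : ℕ} (h1 : w.testBit i = β) (h2 : x.testBit i = (!β))
    (h3 : w / 2 ^ (i + 1) = x / 2 ^ (i + 1)) : Ord β w x := by
  cases β
  · exact lt_of_bits h1 (by simpa using h2) h3
  · exact lt_of_bits (by simpa using h2) h1 h3.symm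

lemma bits_of_ord {J : ℕ} {β : Bool} {w x : ℕ} (hw : w < 2 ^ J) (hx : x < 2 ^ J)
    (h : Ord β w x) : ∃ i, i < J ∧ w.testBit i = β ∧ x.testBit i = (!β) ∧
      w / 2 ^ (i + 1) = x / 2 ^ (i + 1) := by
  cases β
  · obtain ⟨i, hi, h1, h2, h3⟩ := exists_bits (J := J) (show w < x from h) hx
    exact ⟨i, hi, h1, by simpa using h2, h3⟩
  · obtain ⟨i, hi, h1, h2, h3⟩ := exists_bits (J := J) (show x < w from h) hw
    exact ⟨i, hi, h2, by simpa using h1, h3.symm⟩

/-- a true pair is a candidate -/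
lemma cand_of_ord {J Q : ℕ} (hQ : 2 ^ J + 1 < Q) {β : Bool} {w x : ℕ} (hw : w < 2 ^ J)
    (hx : x < 2 ^ J) (h : Ord β w x) (y : Y J Q) :
    Cand J Q β w x (xi J Q β w y) (xi' J Q β x y) := by
  obtain ⟨i, hi, h1, h2, h3⟩ := bits_of_ord hw hx h
  refine ⟨⟨i, hi⟩, h1, h2, h3, ?_⟩
  have hs := (slope_eq_iff hQ hw hx (β := β) (i := i)).mpr ⟨h1, h2, h3⟩
  simp only [xi, xi']
  rw [hs]
  ring

/-- complementarity -/
lemma compl_of_not_ord {J Q : ℕ} (hp : Q.Prime) (hQ : 2 ^ J + 1 < Q) {β : Bool} {w x : ℕ}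
    (hw : w < 2 ^ J) (hx : x < 2 ^ J) (h : ¬ Ord β w x) {y y' : Y J Q}
    (h1 : xi J Q β w y = xi J Q β w y') (h2 : xi' J Q β x y = xi' J Q β x y') : y = y' := by
  have : Fact Q.Prime := ⟨hp⟩
  funext i
  have e1 := congrFun h1 i
  have e2 := congrFun h2 i
  simp only [xi, xi'] at e1 e2
  have hs : (slope β (2 ^ J) w i : ZMod Q) - (slope (!β) (2 ^ J + 1) x i : ZMod Q) ≠ 0 := by
    rw [sub_ne_zero]
    intro he
    obtain ⟨a, b, c⟩ := (slope_eq_iff hQ hw hx).mp he
    exact h (ord_of_bits a b c)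
  have e3 : ((slope β (2 ^ J) w i : ZMod Q) - (slope (!β) (2 ^ J + 1) x i : ZMod Q)) *
      ((y i).2 - (y' i).2) = 0 := by
    linear_combination e1 - e2
  have e4 : (y i).2 = (y' i).2 := by
    rcases mul_eq_zero.mp e3 with h0 | h0
    · exact absurd h0 hs
    · exact sub_eq_zero.mp h0
  have e5 : (y i).1 = (y' i).1 := by
    rw [e4] at e1
    linear_combination e1
  exact Prod.ext e5 e4

lemma not_ord_self (β : Bool) (w : ℕ) : ¬ Ord β w w := by
  cases β <;> simp [Ord]

theorem pair : S_PAIR := by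
  intro J Q hJ hp hQ c c' hg hg' w hw x hx w' hw' x' hx' hR hL
  simp only [sym, Bool.false_eq_true, if_false, if_true, Prod.mk.injEq, true_and] at hR hL
  obtain ⟨hφ1, hF, hH⟩ := hR
  obtain ⟨hφ2, hF', hH'⟩ := hL
  have key : (w', x') = (w, x) := by
    by_contra hne
    have hne' : (w, x) ≠ (w', x') := fun h => hne h.symm
    have a1 : w' = x' := by
      rcases lt_trichotomy w' x' with h | h | h
      · exfalso
        have hc := cand_of_ord hQ hw' hx' (β := false) (by simpa [Ord] using h) c'.2.1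
        rw [← hF, ← hF'] at hc
        exact hg.1 w hw x hx w' hw' x' hx' hne hc
      · exact h
      · exfalso
        have hc := cand_of_ord hQ hw' hx' (β := true) (by simpa [Ord] using h) c'.2.2
        rw [← hH, ← hH'] at hc
        exact hg.2 w hw x hx w' hw' x' hx' hne hc
    have a2 : w = x := by
      rcases lt_trichotomy w x with h | h | h
      · exfalso
        have hc := cand_of_ord hQ hw hx (β := false) (by simpa [Ord] using h) c.2.1
        rw [hF, hF'] at hc
        exact hg'.1 w' hw' x' hx' w hw x hx hne' hc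
      · exact h
      · exfalso
        have hc := cand_of_ord hQ hw hx (β := true) (by simpa [Ord] using h) c.2.2
        rw [hH, hH'] at hc
        exact hg'.2 w' hw' x' hx' w hw x hx hne' hc
    subst a1 a2
    have h2 : (((2 * w : ℕ)) : ZMod (2 ^ (J + 1))) = ((2 * w' : ℕ) : ZMod (2 ^ (J + 1))) := by
      push_cast
      linear_combination hφ1 - hφ2
    have h3 := cast_inj (by rw [pow_succ]; omega) (by rw [pow_succ]; omega) h2
    apply hne
    have : w = w' := by omega
    rw [this]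
  obtain ⟨rfl, rfl⟩ : w' = w ∧ x' = x := by
    simpa using key
  have hφ : c.1 = c'.1 := by linear_combination hφ1
  refine ⟨rfl, rfl, ?_⟩
  rcases lt_trichotomy w' x' with h | h | h
  · right; right
    refine ⟨h, hφ, ?_⟩
    exact compl_of_not_ord hp hQ hw hx (β := true) (by simp [Ord]; omega) hH hH'
  · left
    subst h
    have e1 := compl_of_not_ord hp hQ hw hx (β := false) (not_ord_self _ _) hF hF'
    have e2 := compl_of_not_ord hp hQ hw hx (β := true) (not_ord_self _ _) hH hH'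
    exact Prod.ext hφ (Prod.ext e1 e2)
  · right; left
    refine ⟨h, ?_⟩
    exact compl_of_not_ord hp hQ hw hx (β := false) (by simp [Ord]; omega) hF hF'

end Pool.Agent.W999.DL
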