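import Pool.Agent.W999.DL.Defs

/-! # Project DL: statements of the parts -/

namespace Pool.Agent.W999.DL

/-- number of arc symbols -/
def eE (J Q : ℕ) : ℕ := 2 ^ (J + 2) * Q ^ (2 * J)

/-- number of `y`s -/
def nN (J Q : ℕ) : ℕ := Q ^ (2 * J)

/-- number of codes = length of a window -/
def tT (J Q : ℕ) : ℕ := 2 ^ (J + 1) * nN J Q * nN J Q

/-- DL-LAM -/
def S_LAM : Prop := ∀ n N : ℕ, Lab (Set.Icc 3 n) N → lam n ≤ N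

/-- DL-UNION -/
def S_UNION : Prop := ∀ (S S' : Set ℕ) (N N' : ℕ), Lab S N → Lab S' N' → Lab (S ∪ S') (N + N')

/-- DL-FALL: fallback scheme, two half paths -/
def S_FALL : Prop := ∀ (S : Finset ℕ) (n B : ℕ), (∀ t ∈ S, t ≤ n) → S.card ≤ B ^ 2 →
  Lab (S : Set ℕ) (2 * B * (n + 1))

/-- DL-BAD: few bad `y` -/
def S_BAD : Prop := ∀ (J Q : ℕ), 1 ≤ J → Q.Prime → 2 ^ (2 * J) ≤ Q → 2 ^ J + 1 < Q → ∀ β : Bool,
  Q * {y : Y J Q | ¬ GoodY J Q β y}.ncard ≤ J * 2 ^ (4 * J) * nN J Q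

/-- DL-PAIR: two cycles sharing a right and a left symbol -/
def S_PAIR : Prop := ∀ (J Q : ℕ), 1 ≤ J → Q.Prime → 2 ^ J + 1 < Q →
  ∀ c c' : Code J Q, Good J Q c → Good J Q c' →
  ∀ w < 2 ^ J, ∀ x < 2 ^ J, ∀ w' < 2 ^ J, ∀ x' < 2 ^ J,
  sym J Q c false w = sym J Q c' false w' → sym J Q c true x = sym J Q c' true x' →
  w = w' ∧ x = x' ∧ (c = c' ∨ (x < w ∧ c.2.1 = c'.2.1) ∨
    (w < x ∧ c.1 = c'.1 ∧ c.2.2 = c'.2.2))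

/-- a numbering of the codes by `τ < tT`: `y = c.2.1` corresponds to `τ % nN`,
`(φ, z) = (c.1, c.2.2)` to `τ / nN`. -/
def Numbering (J Q : ℕ) (code : ℕ → Code J Q) : Prop :=
  (∀ τ < tT J Q, ∀ τ' < tT J Q, ((code τ).2.1 = (code τ').2.1 ↔ τ % nN J Q = τ' % nN J Q)) ∧
  (∀ τ < tT J Q, ∀ τ' < tT J Q,
    (((code τ).1 = (code τ').1 ∧ (code τ).2.2 = (code τ').2.2) ↔ τ / nN J Q = τ' / nN J Q))

/-- DL-NUMB -/
def S_NUMB : Prop := ∀ (J Q : ℕ), 1 ≤ J → Q.Prime → ∃ code : ℕ → Code J Q, Numbering J Q code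

/-- DL-LAY: labeling of all cycles with good codes -/
def S_LAY : Prop := ∀ (J Q P n : ℕ) (code : ℕ → Code J Q), 1 ≤ J → Q.Prime → 2 ^ J + 1 < Q →
  Numbering J Q code → P.Prime → eE J Q ≤ P → n < tT J Q * P ^ 2 →
  Lab {t | t ≤ n ∧ Good J Q (code (t % tT J Q))}
    (eE J Q * P * (n / 2 ^ (J + 1) + 1) + (n + 1) * (2 ^ (J + 1) + 1) * tT J Q)

/-- DL-COUNT: few lengths with bad codes -/
def S_COUNT : Prop := ∀ (J Q n : ℕ) (code : ℕ → Code J Q), 1 ≤ J → Q.Prime → 2 ^ (2 * J) ≤ Q →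
  2 ^ J + 1 < Q → Numbering J Q code →
  Q * ({t | t ≤ n ∧ ¬ Good J Q (code (t % tT J Q))} : Set ℕ).ncard ≤
    (n + tT J Q) * (2 * J * 2 ^ (4 * J))

/-- the bound for all parameters -/
def Bound (f : ℕ → ℕ) : Prop := ∀ J Q P B n : ℕ, 1 ≤ J → Q.Prime → 2 ^ (2 * J) ≤ Q →
  2 ^ J + 1 < Q → P.Prime → eE J Q ≤ P → n < tT J Q * P ^ 2 →
  (n + tT J Q) * (2 * J * 2 ^ (4 * J)) ≤ Q * B ^ 2 →
  f n ≤ eE J Q * P * (n / 2 ^ (J + 1) + 1) + (n + 1) * (2 ^ (J + 1) + 1) * tT J Q +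
    2 * B * (n + 1)

/-- DL-NUM: choice of the parameters -/
def S_NUM : Prop := ∀ f : ℕ → ℕ, Bound f → ∃ C : ℝ, ∀ n : ℕ, 1 ≤ n →
  (f n : ℝ) ≤ C * ((n : ℝ) * Real.sqrt n) * (2 : ℝ) ^ (-(Real.sqrt (Real.logb 2 n) / 20))

/-- DL-FIN: what the final file also states -/
def S_FIN : Prop := ∀ f : ℕ → ℕ, (∃ C : ℝ, ∀ n : ℕ, 1 ≤ n →
  (f n : ℝ) ≤ C * ((n : ℝ) * Real.sqrt n) * (2 : ℝ) ^ (-(Real.sqrt (Real.logb 2 n) / 20))) →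
  Filter.Tendsto (fun n : ℕ => (f n : ℝ) / ((n : ℝ) * Real.sqrt n)) Filter.atTop (nhds 0) ∧
  ¬ ∃ C : ℝ, ∀ n : ℕ, 3 ≤ n →
    |(f n : ℝ) - (n : ℝ) * Real.sqrt n / Real.sqrt 6| ≤ C * n

/-- DL-DIST (optional): `cdist` is the graph distance of the cycle graph -/
def S_DIST : Prop := ∀ (t : ℕ), 3 ≤ t → ∀ u v : Fin t,
  (SimpleGraph.cycleGraph t).dist u v = cdist t u v

end Pool.Agent.W999.DL
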